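import Mathlib

set_option autoImplicit false

open MeasureTheory Filter Topology Set
open scoped ENNReal Matrix

namespace Pool.Agent.Results.MP_c2c39f_an.PairSublinear

/-- `A` is a switching law with values in `𝒜`: a measurable map on `[0,∞)` with values in `𝒜`
(the values of `A` at negative times play no role). -/
def IsSwitchingLaw {d : ℕ} (𝒜 : Set (Matrix (Fin d) (Fin d) ℝ))
    (A : ℝ → Matrix (Fin d) (Fin d) ℝ) : Prop :=
  (∀ i j, Measurable fun t => A t i j) ∧ ∀ t, 0 ≤ t → A t ∈ 𝒜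

/-- `x` is a trajectory of the switching law `A`: it is absolutely continuous on every `[0,T]`
and `x'(t) = A(t) x(t)` for almost every `t > 0`. -/
def IsTrajectory {d : ℕ} (A : ℝ → Matrix (Fin d) (Fin d) ℝ)
    (x : ℝ → EuclideanSpace ℝ (Fin d)) : Prop :=
  (∀ T : ℝ, 0 ≤ T → AbsolutelyContinuousOnInterval x 0 T) ∧
    ∀ᵐ t : ℝ, 0 < t → HasDerivAt x (WithLp.toLp 2 (A t *ᵥ (x t).ofLp)) t

/-- The Lyapunov exponent: the supremum over all trajectories of
`limsup (1/t) log ‖x(t)‖`, with `log 0 = -∞`. -/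
noncomputable def lyapunovExponent {d : ℕ} (𝒜 : Set (Matrix (Fin d) (Fin d) ℝ)) : EReal :=
  ⨆ (A : ℝ → Matrix (Fin d) (Fin d) ℝ) (_ : IsSwitchingLaw 𝒜 A)
    (x : ℝ → EuclideanSpace ℝ (Fin d)) (_ : IsTrajectory A x),
    limsup (fun t : ℝ => ENNReal.log ‖x t‖ₑ / (t : EReal)) atTop

/-- The system is marginally unstable: its Lyapunov exponent is `0` and some trajectory is
unbounded. -/
def MarginallyUnstable {d : ℕ} (𝒜 : Set (Matrix (Fin d) (Fin d) ℝ)) : Prop :=
  lyapunovExponent 𝒜 = 0 ∧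
    ∃ A : ℝ → Matrix (Fin d) (Fin d) ℝ, IsSwitchingLaw 𝒜 A ∧
      ∃ x : ℝ → EuclideanSpace ℝ (Fin d), IsTrajectory A x ∧
        ¬ ∃ C : ℝ, ∀ t : ℝ, 0 ≤ t → ‖x t‖ ≤ C

/-- `M(t)`: the supremum of `‖x(t)‖` over all switching laws and all trajectories with
`‖x(0)‖ ≤ 1`. -/
noncomputable def maxGrowth {d : ℕ} (𝒜 : Set (Matrix (Fin d) (Fin d) ℝ)) (t : ℝ) : ℝ≥0∞ :=
  ⨆ (A : ℝ → Matrix (Fin d) (Fin d) ℝ) (_ : IsSwitchingLaw 𝒜 A)
    (x : ℝ → EuclideanSpace ℝ (Fin d)) (_ : IsTrajectory A x) (_ : ‖x 0‖ ≤ 1), ‖x t‖ₑ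

/-- Sublinear growth: `M(t)/t → 0` as `t → ∞`. -/
def SublinearGrowth {d : ℕ} (𝒜 : Set (Matrix (Fin d) (Fin d) ℝ)) : Prop :=
  Tendsto (fun t : ℝ => maxGrowth 𝒜 t / ENNReal.ofReal t) atTop (𝓝 0)

/-- First matrix: a rotation generator on the first two coordinates. -/
def A₀ : Matrix (Fin 3) (Fin 3) ℝ := !![0, -1, 0; 1, 0, 0; 0, 0, 0]

/-- Second matrix. -/
def A₁ : Matrix (Fin 3) (Fin 3) ℝ := !![-1, 0, 1; 0, 0, 0; 0, 0, 0]

lemma ac_coord {d : ℕ} {x : ℝ → EuclideanSpace ℝ (Fin d)} {a b : ℝ}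
    (h : AbsolutelyContinuousOnInterval x a b) (i : Fin d) :
    AbsolutelyContinuousOnInterval (fun t => x t i) a b := by
  refine squeeze_zero (fun t => Finset.sum_nonneg fun _ _ => dist_nonneg)
    (fun t => Finset.sum_le_sum fun j _ => ?_) h
  rw [dist_eq_norm, dist_eq_norm]
  exact PiLp.norm_apply_le (x _ - x _) i

lemma hasDerivAt_coord {d : ℕ} {x : ℝ → EuclideanSpace ℝ (Fin d)}
    {v : EuclideanSpace ℝ (Fin d)} {t : ℝ} (h : HasDerivAt x v t) (i : Fin d) :
    HasDerivAt (fun s => x s i) (v i) t :=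
  ((EuclideanSpace.proj i : EuclideanSpace ℝ (Fin d) →L[ℝ] ℝ).hasFDerivAt).comp_hasDerivAt t h

lemma mem_pair {A : Matrix (Fin 3) (Fin 3) ℝ} (h : A ∈ ({A₀, A₁} : Set _)) :
    A = A₀ ∨ A = A₁ := by simpa using h

lemma A₀_mulVec (v : Fin 3 → ℝ) : A₀ *ᵥ v = ![-v 1, v 0, 0] := by
  ext i; fin_cases i <;> simp [A₀, Matrix.mulVec, dotProduct, Fin.sum_univ_three]

lemma A₁_mulVec (v : Fin 3 → ℝ) : A₁ *ᵥ v = ![-v 0 + v 2, 0, 0] := by
  ext i; fin_cases i <;> simp [A₁, Matrix.mulVec, dotProduct, Fin.sum_univ_three]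

lemma norm_sq_three (v : EuclideanSpace ℝ (Fin 3)) :
    ‖v‖ ^ 2 = v 0 ^ 2 + v 1 ^ 2 + v 2 ^ 2 := by
  rw [EuclideanSpace.real_norm_sq_eq, Fin.sum_univ_three]

/-- The energy estimate. -/
lemma energy_bound {A : ℝ → Matrix (Fin 3) (Fin 3) ℝ} {x : ℝ → EuclideanSpace ℝ (Fin 3)}
    (hA : IsSwitchingLaw {A₀, A₁} A) (hx : IsTrajectory A x) {T : ℝ} (hT : 0 ≤ T) :
    ‖x T‖ ^ 2 ≤ ‖x 0‖ ^ 2 * (1 + T / 2) := by
  obtain ⟨hac, hode⟩ := hx
  have hne : ∀ᵐ t : ℝ, t ≠ 0 := by simp [ae_iff, measure_singleton]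
  -- third coordinate is constant
  have hz : ∀ t ∈ uIcc 0 T, x t 2 = x 0 2 := by
    obtain ⟨C, hC⟩ := (ac_coord (hac T hT) 2).const_of_ae_hasDerivAt_zero (by
      filter_upwards [hode, hne] with t ht htne htm
      have htp : 0 < t := by
        rw [uIcc_of_le hT] at htm
        exact lt_of_le_of_ne htm.1 (Ne.symm htne)
      have h2 := hasDerivAt_coord (ht htp) 2
      rcases mem_pair (hA.2 t htp.le) with h | h
      · rw [h, A₀_mulVec] at h2; simpa using h2
      · rw [h, A₁_mulVec] at h2; simpa using h2)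
    intro t ht
    rw [hC t ht, hC 0 (by simp)]
  set z := x 0 2 with hzdef
  set g : ℝ → ℝ := fun t => x t 0 * x t 0 + x t 1 * x t 1 with hg
  have hgac : AbsolutelyContinuousOnInterval g 0 T :=
    ((ac_coord (hac T hT) 0).fun_mul (ac_coord (hac T hT) 0)).fun_add
      ((ac_coord (hac T hT) 1).fun_mul (ac_coord (hac T hT) 1))
  have hderiv : ∀ᵐ t : ℝ, t ∈ Icc 0 T → deriv g t ≤ z ^ 2 / 2 := by
    filter_upwards [hode, hne] with t ht htne htm
    have htp : 0 < t := lt_of_le_of_ne htm.1 (Ne.symm htne)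
    have hd := ht htp
    have h0 := hasDerivAt_coord hd 0
    have h1 := hasDerivAt_coord hd 1
    have hgd := ((h0.mul h0).add (h1.mul h1))
    have hgd' : deriv g t = _ := hgd.deriv
    rw [hgd']
    have hzt : x t 2 = z := hz t (by rw [uIcc_of_le hT]; exact htm)
    rcases mem_pair (hA.2 t htp.le) with h | h
    · rw [h, A₀_mulVec]
      simp only [Matrix.cons_val_zero, Matrix.cons_val_one]
      nlinarith [sq_nonneg z]
    · rw [h, A₁_mulVec]
      simp only [Matrix.cons_val_zero, Matrix.cons_val_one]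
      rw [hzt]
      nlinarith [sq_nonneg (2 * x t 0 - z)]
  have hFTC := hgac.integral_deriv_eq_sub
  have hle : ∫ t in (0:ℝ)..T, deriv g t ≤ ∫ _t in (0:ℝ)..T, z ^ 2 / 2 := by
    apply intervalIntegral.integral_mono_ae_restrict hT hgac.intervalIntegrable_deriv
      intervalIntegrable_const
    rw [EventuallyLE, ae_restrict_iff' measurableSet_Icc]
    exact hderiv
  rw [hFTC, intervalIntegral.integral_const] at hle
  have hn := norm_sq_three (x T)
  have hn0 := norm_sq_three (x 0)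
  have hzT : x T 2 = z := hz T (by simp)
  rw [hn, hn0, hzT]
  simp only [hg, smul_eq_mul, sub_zero] at hle
  have hz2 : 0 ≤ z ^ 2 := sq_nonneg z
  have := sq_nonneg (x 0 0)
  have := sq_nonneg (x 0 1)
  nlinarith [mul_nonneg hT (sq_nonneg (x 0 0)), mul_nonneg hT (sq_nonneg (x 0 1))]

/-- `‖x(T)‖ ≤ ‖x(0)‖ √(1 + T/2)`. -/
lemma norm_bound {A : ℝ → Matrix (Fin 3) (Fin 3) ℝ} {x : ℝ → EuclideanSpace ℝ (Fin 3)}
    (hA : IsSwitchingLaw {A₀, A₁} A) (hx : IsTrajectory A x) {T : ℝ} (hT : 0 ≤ T) :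
    ‖x T‖ ≤ ‖x 0‖ * √(1 + T / 2) := by
  have h := energy_bound hA hx hT
  have h1 : 0 ≤ 1 + T / 2 := by positivity
  refine (sq_le_sq₀ (norm_nonneg _) (by positivity)).mp ?_
  rw [mul_pow, Real.sq_sqrt h1]
  exact h

lemma maxGrowth_le {t : ℝ} (ht : 0 ≤ t) :
    maxGrowth {A₀, A₁} t ≤ ENNReal.ofReal √(1 + t / 2) := by
  refine iSup_le fun A => iSup_le fun hA => iSup_le fun x => iSup_le fun hx => iSup_le fun h0 => ?_
  rw [← ofReal_norm]
  apply ENNReal.ofReal_le_ofReal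
  calc ‖x t‖ ≤ ‖x 0‖ * √(1 + t / 2) := norm_bound hA hx ht
    _ ≤ 1 * √(1 + t / 2) := by gcongr
    _ = _ := one_mul _

lemma sublinear : SublinearGrowth {A₀, A₁} := by
  have hlim : Tendsto (fun t : ℝ => ENNReal.ofReal (√(1 + t / 2) / t)) atTop (𝓝 0) := by
    rw [← ENNReal.ofReal_zero]
    apply ENNReal.tendsto_ofReal
    have h1 : Tendsto (fun t : ℝ => 1 / √t) atTop (𝓝 0) :=
      tendsto_const_nhds.div_atTop Real.tendsto_sqrt_atTop
    apply squeeze_zero' _ _ h1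
    · filter_upwards [eventually_gt_atTop 0] with t ht
      positivity
    · filter_upwards [eventually_ge_atTop 2] with t ht
      have htp : 0 < t := by linarith
      have hs : 0 < √t := Real.sqrt_pos.mpr htp
      rw [div_le_div_iff₀ htp hs, one_mul, ← Real.sqrt_mul' _ htp.le]
      apply Real.sqrt_le_iff.mpr
      constructor
      · exact htp.le
      · nlinarith
  refine tendsto_of_tendsto_of_tendsto_of_le_of_le' tendsto_const_nhds hlim
    (Eventually.of_forall fun _ => zero_le) ?_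
  filter_upwards [eventually_gt_atTop 0] with t ht
  rw [ENNReal.ofReal_div_of_pos ht]
  gcongr
  exact maxGrowth_le ht.le

lemma tendsto_log_div (K : ℝ) :
    Tendsto (fun t : ℝ => (Real.log K + Real.log (1 + t)) / t) atTop (𝓝 0) := by
  have h1 : Tendsto (fun t : ℝ => Real.log K / t) atTop (𝓝 0) :=
    tendsto_const_nhds.div_atTop tendsto_id
  have h2 : Tendsto (fun t : ℝ => Real.log (1 + t) / t) atTop (𝓝 0) := by
    have h3 := (Real.tendsto_pow_log_div_mul_add_atTop 1 (-1) 1 one_ne_zero).comp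
      (tendsto_atTop_add_const_left atTop (1 : ℝ) tendsto_id)
    refine h3.congr fun t => ?_
    simp only [Function.comp_apply, id_eq, pow_one, one_mul]
    congr 1
    ring
  have h := h1.add h2
  rw [add_zero] at h
  refine h.congr fun t => ?_
  ring

lemma lyapunov_le : lyapunovExponent {A₀, A₁} ≤ 0 := by
  refine iSup_le fun A => iSup_le fun hA => iSup_le fun x => iSup_le fun hx => ?_
  have hlim : Tendsto (fun t : ℝ => (((Real.log (‖x 0‖ + 1) + Real.log (1 + t)) / t : ℝ) : EReal))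
      atTop (𝓝 ((0 : ℝ) : EReal)) :=
    (continuous_coe_real_ereal.tendsto 0).comp (tendsto_log_div _)
  rw [← EReal.coe_zero, ← hlim.limsup_eq]
  refine limsup_le_limsup ?_
  filter_upwards [eventually_gt_atTop 0] with t ht
  rw [EReal.coe_div]
  apply EReal.div_le_div_right_of_nonneg (by exact_mod_cast ht.le)
  have hpos : 0 < (‖x 0‖ + 1) * (1 + t) := by positivity
  have hb : ‖x t‖ ≤ (‖x 0‖ + 1) * (1 + t) := by
    calc ‖x t‖ ≤ ‖x 0‖ * √(1 + t / 2) := norm_bound hA hx ht.le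
      _ ≤ (‖x 0‖ + 1) * (1 + t) := by
        gcongr
        · linarith
        · apply Real.sqrt_le_iff.mpr
          constructor <;> nlinarith
  calc ENNReal.log ‖x t‖ₑ ≤ ENNReal.log (ENNReal.ofReal ((‖x 0‖ + 1) * (1 + t))) := by
        apply ENNReal.log_monotone
        rw [← ofReal_norm]
        exact ENNReal.ofReal_le_ofReal hb
    _ = ((Real.log (‖x 0‖ + 1) + Real.log (1 + t) : ℝ) : EReal) := by
        rw [ENNReal.log_ofReal_of_pos hpos, Real.log_mul (by positivity) (by positivity)]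

lemma const_trajectory :
    IsTrajectory (fun _ => A₀) (fun _ => (WithLp.toLp 2 ![0, 0, 1] : EuclideanSpace ℝ (Fin 3))) := by
  refine ⟨fun T _ => ?_, ?_⟩
  · exact (LipschitzWith.const _ : LipschitzWith 0 _).lipschitzOnWith.absolutelyContinuousOnInterval
  · filter_upwards with t _
    have h0 : (WithLp.toLp 2 (A₀ *ᵥ ![0, 0, 1]) : EuclideanSpace ℝ (Fin 3)) = 0 := by
      rw [A₀_mulVec]
      ext i; fin_cases i <;> simp
    simp only [h0]
    exact hasDerivAt_const _ _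

lemma lyapunov_ge : 0 ≤ lyapunovExponent {A₀, A₁} := by
  have hlaw : IsSwitchingLaw {A₀, A₁} (fun _ : ℝ => A₀) :=
    ⟨fun i j => measurable_const, fun t _ => by simp⟩
  refine le_iSup_of_le (fun _ => A₀) (le_iSup_of_le hlaw (le_iSup_of_le _
    (le_iSup_of_le const_trajectory ?_)))
  have hnorm : ‖(WithLp.toLp 2 ![0, 0, 1] : EuclideanSpace ℝ (Fin 3))‖ = 1 := by
    rw [EuclideanSpace.norm_eq]
    simp [Fin.sum_univ_three]
  have h1 : ‖(WithLp.toLp 2 ![0, 0, 1] : EuclideanSpace ℝ (Fin 3))‖ₑ = 1 := by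
    rw [← ofReal_norm, hnorm, ENNReal.ofReal_one]
  simp only [h1, ENNReal.log_one, EReal.zero_div]
  rw [limsup_const]

/-- Gluing countably many pieces of solutions. -/
lemma glue {d : ℕ} {𝒜 : Set (Matrix (Fin d) (Fin d) ℝ)} (T : ℕ → ℝ) (hT0 : T 0 = 0)
    (hTm : StrictMono T) (hTt : Tendsto T atTop atTop)
    (B : ℕ → Matrix (Fin d) (Fin d) ℝ) (hB : ∀ n, B n ∈ 𝒜) (K : ℝ)
    (hK : ∀ n (v : EuclideanSpace ℝ (Fin d)),
      ‖(WithLp.toLp 2 (B n *ᵥ v.ofLp) : EuclideanSpace ℝ (Fin d))‖ ≤ K * ‖v‖)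
    (φ : ℕ → ℝ → EuclideanSpace ℝ (Fin d))
    (hφ : ∀ n t, HasDerivAt (φ n) (WithLp.toLp 2 (B n *ᵥ (φ n t).ofLp)) t)
    (hglue : ∀ n, φ n (T (n + 1)) = φ (n + 1) (T (n + 1))) :
    ∃ A : ℝ → Matrix (Fin d) (Fin d) ℝ, IsSwitchingLaw 𝒜 A ∧
      ∃ x : ℝ → EuclideanSpace ℝ (Fin d), IsTrajectory A x ∧ ∀ n, x (T n) = φ n (T n) := by
  classical
  have hex : ∀ t : ℝ, ∃ n, t < T (n + 1) := by
    intro t
    obtain ⟨n, hn⟩ := (hTt.eventually_gt_atTop t).exists
    exact ⟨n, hn.trans (hTm (Nat.lt_succ_self n))⟩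
  let idx : ℝ → ℕ := fun t => Nat.find (hex t)
  have hidx : ∀ n t, T n ≤ t → t < T (n + 1) → idx t = n := by
    intro n t h1 h2
    apply (Nat.find_eq_iff (hex t)).mpr
    refine ⟨h2, fun m hm => ?_⟩
    have : T (m + 1) ≤ T n := hTm.monotone hm
    linarith
  have hidx_spec : ∀ t, t < T (idx t + 1) := fun t => Nat.find_spec (hex t)
  have hidx_le : ∀ t, 0 ≤ t → T (idx t) ≤ t := by
    intro t ht
    rcases Nat.eq_zero_or_pos (idx t) with h | h
    · rw [h, hT0]; exact ht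
    · have := Nat.find_min (hex t) (Nat.sub_lt h one_pos)
      have h3 : Nat.find (hex t) - 1 + 1 = idx t := Nat.sub_add_cancel h
      rw [h3] at this
      exact not_lt.mp this
  have hmono : Monotone idx := by
    intro s t hst
    exact Nat.find_min' (hex s) (lt_of_le_of_lt hst (hidx_spec t))
  have hmeas : Measurable idx := hmono.measurable
  let x : ℝ → EuclideanSpace ℝ (Fin d) := fun t => φ (idx t) t
  let A : ℝ → Matrix (Fin d) (Fin d) ℝ := fun t => B (idx t)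
  -- on each closed piece `x` is `φ n`
  have hx_piece : ∀ n, ∀ t ∈ Icc (T n) (T (n + 1)), x t = φ n t := by
    intro n t ht
    rcases eq_or_lt_of_le ht.2 with h | h
    · have h4 : idx t = n + 1 := by
        apply hidx
        · exact h.ge
        · rw [h]; exact hTm (Nat.lt_succ_self _)
      change φ (idx t) t = φ n t
      rw [h4, h, hglue n]
    · change φ (idx t) t = φ n t
      rw [hidx n t ht.1 h]
  have hφc : ∀ n, Continuous (φ n) := fun n =>
    continuous_iff_continuousAt.mpr fun t => (hφ n t).continuousAt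
  have hcont : ∀ n, ContinuousOn x (Icc 0 (T n)) := by
    intro n
    induction n with
    | zero =>
      rw [hT0, Icc_self]
      exact continuousOn_singleton _ _
    | succ n ih =>
      have h0n : 0 ≤ T n := by rw [← hT0]; exact hTm.monotone (Nat.zero_le n)
      have hnn : T n ≤ T (n + 1) := hTm.monotone (Nat.le_succ n)
      rw [← Icc_union_Icc_eq_Icc h0n hnn]
      apply ih.union_of_isClosed _ isClosed_Icc isClosed_Icc
      exact (hφc n).continuousOn.congr (hx_piece n)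
  have hcontM : ∀ M : ℝ, ContinuousOn x (Icc 0 M) := by
    intro M
    obtain ⟨n, hn⟩ := (hTt.eventually_ge_atTop M).exists
    exact (hcont n).mono (Icc_subset_Icc le_rfl hn)
  have hright : ∀ t, 0 ≤ t →
      HasDerivWithinAt x (WithLp.toLp 2 (A t *ᵥ (x t).ofLp)) (Ici t) t := by
    intro t ht
    have h1 : HasDerivWithinAt (φ (idx t)) (WithLp.toLp 2 (A t *ᵥ (x t).ofLp)) (Ici t) t :=
      (hφ (idx t) t).hasDerivWithinAt
    have hxt : x t = φ (idx t) t := rfl
    refine h1.congr_of_eventuallyEq ?_ hxt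
    have : Ico t (T (idx t + 1)) ∈ 𝓝[≥] t := Ico_mem_nhdsGE (hidx_spec t)
    filter_upwards [this] with s hs
    exact hx_piece (idx t) s ⟨(hidx_le t ht).trans hs.1, hs.2.le⟩
  have hK0 : ∀ t, ‖(WithLp.toLp 2 (A t *ᵥ (x t).ofLp) : EuclideanSpace ℝ (Fin d))‖
      ≤ K * ‖x t‖ := fun t => hK _ _
  refine ⟨A, ⟨fun i j => ?_, fun t _ => hB _⟩, x, ⟨fun M hM => ?_, ?_⟩, fun n => ?_⟩
  · exact (measurable_of_countable fun n : ℕ => B n i j).comp hmeas
  · obtain ⟨C, hC⟩ := isCompact_Icc.exists_bound_of_continuousOn (hcontM M)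
    have hC' : ∀ t ∈ Icc 0 M, ‖(WithLp.toLp 2 (A t *ᵥ (x t).ofLp) :
        EuclideanSpace ℝ (Fin d))‖ ≤ |K| * |C| := by
      intro t ht
      calc _ ≤ K * ‖x t‖ := hK0 t
        _ ≤ |K| * ‖x t‖ := by gcongr; exact le_abs_self K
        _ ≤ |K| * |C| := by gcongr; exact (hC t ht).trans (le_abs_self C)
    have hlip : LipschitzOnWith (Real.toNNReal (|K| * |C|)) x (uIcc 0 M) := by
      rw [uIcc_of_le hM]
      apply LipschitzOnWith.of_dist_le_mul
      have key : ∀ a ∈ Icc 0 M, ∀ b ∈ Icc 0 M, a ≤ b → ‖x b - x a‖ ≤ |K| * |C| * (b - a) := by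
        intro a ha b hb hab
        exact norm_image_sub_le_of_norm_deriv_right_le_segment
          (f := x) (f' := fun t => WithLp.toLp 2 (A t *ᵥ (x t).ofLp)) (a := a) (b := b)
          ((hcontM M).mono (Icc_subset_Icc ha.1 hb.2))
          (fun t ht => hright t (ha.1.trans ht.1))
          (fun t ht => hC' t ⟨ha.1.trans ht.1, ht.2.le.trans hb.2⟩) b ⟨hab, le_rfl⟩
      intro a ha b hb
      rw [Real.coe_toNNReal _ (by positivity)]
      rcases le_total a b with hab | hab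
      · rw [dist_comm, dist_eq_norm, dist_comm a b, Real.dist_eq,
          abs_of_nonneg (sub_nonneg.mpr hab)]
        exact key a ha b hb hab
      · rw [dist_eq_norm, Real.dist_eq, abs_of_nonneg (sub_nonneg.mpr hab)]
        exact key b hb a ha hab
    exact hlip.absolutelyContinuousOnInterval
  · have hnull : ∀ᵐ t : ℝ, t ∉ range T :=
      (Set.countable_range T).ae_notMem volume
    filter_upwards [hnull] with t ht htp
    have hlt : T (idx t) < t := by
      refine lt_of_le_of_ne (hidx_le t htp.le) fun h => ht ⟨idx t, h⟩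
    have h1 : HasDerivAt (φ (idx t)) (WithLp.toLp 2 (A t *ᵥ (x t).ofLp)) t := hφ (idx t) t
    apply h1.congr_of_eventuallyEq
    have : Ioo (T (idx t)) (T (idx t + 1)) ∈ 𝓝 t := Ioo_mem_nhds hlt (hidx_spec t)
    filter_upwards [this] with s hs
    exact hx_piece (idx t) s ⟨hs.1.le, hs.2.le⟩
  · exact hx_piece n (T n) ⟨le_rfl, hTm.monotone (Nat.le_succ n)⟩

/-! ### An explicit unbounded trajectory -/

/-- The gain of one cycle. -/
noncomputable def c : ℝ := 1 - Real.exp (-1)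

lemma c_pos : 0 < c := by
  have : Real.exp (-1) < 1 := Real.exp_lt_one_iff.mpr (by norm_num)
  unfold c; linarith

/-- Radius after `n` cycles. -/
noncomputable def R (n : ℕ) : ℝ := √(1 + n * c ^ 2)

lemma R_pos (n : ℕ) : 0 < R n := Real.sqrt_pos.mpr (by positivity)

lemma R_sq (n : ℕ) : R n ^ 2 = 1 + n * c ^ 2 := Real.sq_sqrt (by positivity)

lemma R_succ (n : ℕ) : R (n + 1) = √(R n ^ 2 + c ^ 2) := by
  rw [R_sq, R]; congr 1; push_cast; ring

/-- Angle of the rotation in cycle `n`. -/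
noncomputable def ang (n : ℕ) : ℝ := Real.arctan (c / R n)

lemma ang_pos (n : ℕ) : 0 < ang n := Real.arctan_pos.mpr (div_pos c_pos (R_pos n))

lemma sqrt_ang (n : ℕ) : √(1 + (c / R n) ^ 2) = R (n + 1) / R n := by
  rw [R_succ, ← Real.sqrt_sq (R_pos n).le, ← Real.sqrt_div' _ (by positivity)]
  congr 1
  rw [Real.sqrt_sq (R_pos n).le]
  have := (R_pos n).ne'
  field_simp

lemma cos_ang (n : ℕ) : Real.cos (ang n) = R n / R (n + 1) := by
  rw [ang, Real.cos_arctan, sqrt_ang, one_div_div]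

lemma sin_ang (n : ℕ) : Real.sin (ang n) = c / R (n + 1) := by
  rw [ang, Real.sin_arctan, sqrt_ang]
  have := (R_pos n).ne'
  have := (R_pos (n + 1)).ne'
  field_simp

/-- Starting time of cycle `n`. -/
noncomputable def S : ℕ → ℝ
  | 0 => 0
  | n + 1 => S n + 1 + ang n

lemma le_S (n : ℕ) : (n : ℝ) ≤ S n := by
  induction n with
  | zero => simp [S]
  | succ n ih => have := ang_pos n; simp only [S]; push_cast; linarith

/-- Switching times. -/
noncomputable def T (m : ℕ) : ℝ := if Even m then S (m / 2) else S (m / 2) + 1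

/-- Modes. -/
noncomputable def B (m : ℕ) : Matrix (Fin 3) (Fin 3) ℝ := if Even m then A₁ else A₀

/-- Pieces of the trajectory. -/
noncomputable def φ (m : ℕ) (t : ℝ) : EuclideanSpace ℝ (Fin 3) :=
  if Even m then
    WithLp.toLp 2 ![1 - Real.exp (-(t - S (m / 2))), R (m / 2), 1]
  else
    WithLp.toLp 2 ![c * Real.cos (t - S (m / 2) - 1) - R (m / 2) * Real.sin (t - S (m / 2) - 1),
      c * Real.sin (t - S (m / 2) - 1) + R (m / 2) * Real.cos (t - S (m / 2) - 1), 1]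

lemma T_even (n : ℕ) : T (2 * n) = S n := by simp [T]

lemma T_odd (n : ℕ) : T (2 * n + 1) = S n + 1 := by
  have h1 : ¬ Even (2 * n + 1) := by simp
  have h2 : (2 * n + 1) / 2 = n := by omega
  simp [T, h1, h2]

lemma φ_even (n : ℕ) (t : ℝ) :
    φ (2 * n) t = WithLp.toLp 2 ![1 - Real.exp (-(t - S n)), R n, 1] := by simp [φ]

lemma φ_odd (n : ℕ) (t : ℝ) :
    φ (2 * n + 1) t = WithLp.toLp 2 ![c * Real.cos (t - S n - 1) - R n * Real.sin (t - S n - 1),
      c * Real.sin (t - S n - 1) + R n * Real.cos (t - S n - 1), 1] := by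
  have h1 : ¬ Even (2 * n + 1) := by simp
  have h2 : (2 * n + 1) / 2 = n := by omega
  simp only [φ, h1, h2, if_false]

lemma T_strictMono : StrictMono T := by
  apply strictMono_nat_of_lt_succ
  intro m
  rcases Nat.even_or_odd' m with ⟨n, rfl | rfl⟩
  · rw [T_even, T_odd]; linarith
  · rw [T_odd, show 2 * n + 1 + 1 = 2 * (n + 1) by ring, T_even, S]
    linarith [ang_pos n]

lemma T_tendsto : Tendsto T atTop atTop := by
  have h : ∀ m : ℕ, (m : ℝ) / 2 - 1 ≤ T m := by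
    intro m
    rcases Nat.even_or_odd' m with ⟨n, rfl | rfl⟩
    · rw [T_even]; push_cast; linarith [le_S n]
    · rw [T_odd]; push_cast; linarith [le_S n]
  refine tendsto_atTop_mono h ?_
  have h1 : Tendsto (fun m : ℕ => (m : ℝ) / 2) atTop atTop :=
    tendsto_natCast_atTop_atTop.atTop_div_const (by norm_num)
  simpa [sub_eq_add_neg] using tendsto_atTop_add_const_right atTop (-1 : ℝ) h1

lemma hasDerivAt_vec {f₀ f₁ f₂ : ℝ → ℝ} {a₀ a₁ a₂ t : ℝ} (h0 : HasDerivAt f₀ a₀ t)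
    (h1 : HasDerivAt f₁ a₁ t) (h2 : HasDerivAt f₂ a₂ t) :
    HasDerivAt (fun s => (WithLp.toLp 2 ![f₀ s, f₁ s, f₂ s] : EuclideanSpace ℝ (Fin 3)))
      (WithLp.toLp 2 ![a₀, a₁, a₂]) t := by
  have h : HasDerivAt (fun s => ![f₀ s, f₁ s, f₂ s]) ![a₀, a₁, a₂] t := by
    rw [hasDerivAt_pi]
    intro i
    fin_cases i
    · exact h0
    · exact h1
    · exact h2
  exact ((PiLp.continuousLinearEquiv 2 ℝ (fun _ : Fin 3 => ℝ)).symm.hasFDerivAt).comp_hasDerivAt t h

lemma φ_hasDerivAt (m : ℕ) (t : ℝ) :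
    HasDerivAt (φ m) (WithLp.toLp 2 (B m *ᵥ (φ m t).ofLp)) t := by
  rcases Nat.even_or_odd' m with ⟨n, rfl | rfl⟩
  · have hf : φ (2 * n) = fun s => WithLp.toLp 2 ![1 - Real.exp (-(s - S n)), R n, 1] := by
      ext1 s; exact φ_even n s
    have hB : B (2 * n) = A₁ := by simp [B]
    rw [hf, hB, A₁_mulVec]
    apply hasDerivAt_vec
    · have h1 : HasDerivAt (fun s => -(s - S n)) (-1) t := ((hasDerivAt_id t).sub_const _).neg
      have h2 := (h1.exp).const_sub 1
      refine h2.congr_deriv ?_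
      simp
    · exact hasDerivAt_const _ _
    · exact hasDerivAt_const _ _
  · have hf : φ (2 * n + 1) = fun s => WithLp.toLp 2
        ![c * Real.cos (s - S n - 1) - R n * Real.sin (s - S n - 1),
          c * Real.sin (s - S n - 1) + R n * Real.cos (s - S n - 1), 1] := by
      ext1 s; exact φ_odd n s
    have hB : B (2 * n + 1) = A₀ := by simp [B]
    rw [hf, hB, A₀_mulVec]
    have h1 : HasDerivAt (fun s => s - S n - 1) 1 t := ((hasDerivAt_id t).sub_const _).sub_const _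
    apply hasDerivAt_vec
    · have h2 := (h1.cos.const_mul c).sub (h1.sin.const_mul (R n))
      refine h2.congr_deriv ?_
      simp only [Matrix.cons_val_one, Matrix.cons_val_zero]
      ring
    · have h2 := (h1.sin.const_mul c).add (h1.cos.const_mul (R n))
      refine h2.congr_deriv ?_
      simp only [Matrix.cons_val_zero]
      ring
    · exact hasDerivAt_const _ _

lemma φ_glue (m : ℕ) : φ m (T (m + 1)) = φ (m + 1) (T (m + 1)) := by
  rcases Nat.even_or_odd' m with ⟨n, rfl | rfl⟩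
  · rw [T_odd, φ_even, φ_odd]
    have h1 : S n + 1 - S n = 1 := by ring
    have h2 : S n + 1 - S n - 1 = 0 := by ring
    rw [h2, h1]
    simp [c]
  · rw [show 2 * n + 1 + 1 = 2 * (n + 1) by ring, T_even, φ_even, φ_odd]
    have h1 : S (n + 1) - S n - 1 = ang n := by rw [S]; ring
    rw [h1, cos_ang, sin_ang]
    have hR := (R_pos (n + 1)).ne'
    have e1 : c * (R n / R (n + 1)) - R n * (c / R (n + 1)) = 0 := by ring
    have e2 : c * (c / R (n + 1)) + R n * (R n / R (n + 1)) = R (n + 1) := by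
      field_simp
      rw [R_sq, R_sq]; push_cast; ring
    rw [e1, e2]
    simp

lemma B_bound (m : ℕ) (v : EuclideanSpace ℝ (Fin 3)) :
    ‖(WithLp.toLp 2 (B m *ᵥ v.ofLp) : EuclideanSpace ℝ (Fin 3))‖ ≤ 2 * ‖v‖ := by
  have hv := norm_sq_three v
  refine (sq_le_sq₀ (norm_nonneg _) (by positivity)).mp ?_
  rw [mul_pow, norm_sq_three, hv]
  unfold B
  split_ifs
  · rw [A₁_mulVec]
    simp
    nlinarith [sq_nonneg (v 0 + v 2), sq_nonneg (v 1), sq_nonneg (v 0), sq_nonneg (v 2)]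
  · rw [A₀_mulVec]
    simp
    nlinarith [sq_nonneg (v 1), sq_nonneg (v 0), sq_nonneg (v 2)]

lemma unbounded : ∃ A : ℝ → Matrix (Fin 3) (Fin 3) ℝ, IsSwitchingLaw {A₀, A₁} A ∧
    ∃ x : ℝ → EuclideanSpace ℝ (Fin 3), IsTrajectory A x ∧
      ¬ ∃ C : ℝ, ∀ t : ℝ, 0 ≤ t → ‖x t‖ ≤ C := by
  obtain ⟨A, hA, x, hx, hxT⟩ := glue (𝒜 := {A₀, A₁}) T (by rw [← Nat.mul_zero 2, T_even, S])
    T_strictMono T_tendsto B (fun n => by unfold B; split_ifs <;> simp) 2 B_bound φ φ_hasDerivAt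
    φ_glue
  refine ⟨A, hA, x, hx, ?_⟩
  rintro ⟨C, hC⟩
  obtain ⟨n, hn⟩ := exists_nat_gt (C ^ 2 / c ^ 2)
  have hc := c_pos
  have hTn : 0 ≤ T (2 * n) := by rw [T_even]; exact (Nat.cast_nonneg n).trans (le_S n)
  have h1 := hC _ hTn
  rw [hxT, φ_even] at h1
  have h2 : R n ≤ ‖(WithLp.toLp 2 ![1 - Real.exp (-(T (2 * n) - S n)), R n, 1] :
      EuclideanSpace ℝ (Fin 3))‖ := by
    have := PiLp.norm_apply_le (WithLp.toLp 2 ![1 - Real.exp (-(T (2 * n) - S n)), R n, 1] :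
      EuclideanSpace ℝ (Fin 3)) 1
    simp only [Matrix.cons_val_one, Matrix.cons_val_zero, Real.norm_eq_abs,
      abs_of_pos (R_pos n)] at this
    exact this
  have h3 : R n ≤ C := h2.trans h1
  have h4 : R n ^ 2 ≤ C ^ 2 := by
    have := R_pos n
    gcongr
  rw [R_sq] at h4
  rw [div_lt_iff₀ (by positivity)] at hn
  linarith

/-- **Answer to Q1 (yes), by a pair of 3 × 3 matrices.** The continuous-time switching system
given by the two-element set `{A₀, A₁}` is marginally unstable and has sublinear growth. -/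
theorem result :
    IsCompact ({!![0, -1, 0; 1, 0, 0; 0, 0, 0], !![-1, 0, 1; 0, 0, 0; 0, 0, 0]} :
        Set (Matrix (Fin 3) (Fin 3) ℝ)) ∧
      MarginallyUnstable ({!![0, -1, 0; 1, 0, 0; 0, 0, 0], !![-1, 0, 1; 0, 0, 0; 0, 0, 0]} :
        Set (Matrix (Fin 3) (Fin 3) ℝ)) ∧
      SublinearGrowth ({!![0, -1, 0; 1, 0, 0; 0, 0, 0], !![-1, 0, 1; 0, 0, 0; 0, 0, 0]} :
        Set (Matrix (Fin 3) (Fin 3) ℝ)) :=
  ⟨(Set.toFinite _).isCompact, ⟨le_antisymm lyapunov_le lyapunov_ge, unbounded⟩, sublinear⟩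

end Pool.Agent.Results.MP_c2c39f_an.PairSublinear
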